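import Pool.Agent.N303.LS.Stm6

/-!
# Project LG, leaf LPK, part B: the weights
-/

set_option autoImplicit false

namespace Pool.Agent.N297.LPK

open MeasureTheory Pool.Agent.N303.LS
open scoped ENNReal FourierTransform RealInnerProductSpace SchwartzMap

/-- the weight of the Gamma integral -/
noncomputable def wt (a c u : ℝ) : ℝ :=
  (Set.Ioi (0 : ℝ)).indicator (fun u => Real.exp (-u) * u ^ (a - 1) * c) u

theorem int_wt {a : ℝ} (ha : 0 < a) (c : ℝ) : Integrable (wt a c) := by
  have h := (Real.GammaIntegral_convergent ha).mul_const c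
  exact (integrable_indicator_iff measurableSet_Ioi).2 h

theorem gamma_int {d : ℕ} {a : ℝ} (ha : 0 < a) (ξ : E d) :
    ∫ u, wt a (Real.Gamma a)⁻¹ u * Real.exp (-(4 * Real.pi ^ 2 * (u * ‖ξ‖ ^ 2))) =
      (1 + 4 * Real.pi ^ 2 * ‖ξ‖ ^ 2) ^ (-a) := by
  have hr : 0 < 1 + 4 * Real.pi ^ 2 * ‖ξ‖ ^ 2 := by positivity
  have h1 : (fun u => wt a (Real.Gamma a)⁻¹ u * Real.exp (-(4 * Real.pi ^ 2 * (u * ‖ξ‖ ^ 2)))) =
      (Set.Ioi (0 : ℝ)).indicator (fun u => (Real.Gamma a)⁻¹ * (u ^ (a - 1) *
        Real.exp (-((1 + 4 * Real.pi ^ 2 * ‖ξ‖ ^ 2) * u)))) := by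
    funext u
    unfold wt
    by_cases hu : u ∈ Set.Ioi (0 : ℝ)
    · rw [Set.indicator_of_mem hu, Set.indicator_of_mem hu]
      have h2 : Real.exp (-((1 + 4 * Real.pi ^ 2 * ‖ξ‖ ^ 2) * u)) =
          Real.exp (-u) * Real.exp (-(4 * Real.pi ^ 2 * (u * ‖ξ‖ ^ 2))) := by
        rw [← Real.exp_add]
        congr 1
        ring
      rw [h2]
      ring
    · rw [Set.indicator_of_notMem hu, Set.indicator_of_notMem hu, zero_mul]
  rw [h1, integral_indicator measurableSet_Ioi, integral_const_mul,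
    Real.integral_rpow_mul_exp_neg_mul_Ioi ha hr, one_div, Real.inv_rpow hr.le,
    Real.rpow_neg hr.le]
  have h3 := (Real.Gamma_pos_of_pos ha).ne'
  field_simp

theorem wt_nonneg {a c : ℝ} (hc : 0 ≤ c) (u : ℝ) : 0 ≤ wt a c u := by
  unfold wt
  refine Set.indicator_nonneg (fun u hu => ?_) u
  have : (0 : ℝ) < u := hu
  positivity

theorem wt_le {a c u : ℝ} (hc : 0 ≤ c) (hu : 0 < u) : wt a c u ≤ c * u ^ (a - 1) := by
  unfold wt
  rw [Set.indicator_of_mem (show u ∈ Set.Ioi (0 : ℝ) from hu)]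
  have h1 : Real.exp (-u) ≤ 1 := Real.exp_le_one_iff.2 (by linarith)
  have h2 : 0 ≤ u ^ (a - 1) := by positivity
  have h3 : Real.exp (-u) * u ^ (a - 1) ≤ 1 * u ^ (a - 1) := mul_le_mul_of_nonneg_right h1 h2
  calc Real.exp (-u) * u ^ (a - 1) * c ≤ 1 * u ^ (a - 1) * c := mul_le_mul_of_nonneg_right h3 hc
    _ = c * u ^ (a - 1) := by ring

theorem wt_out {a c u : ℝ} (hu : u ≤ 0) : wt a c u = 0 := by
  unfold wt
  exact Set.indicator_of_notMem (not_lt.2 hu) _

/-- the part near zero -/
noncomputable def wA (a c L u : ℝ) : ℝ := (Set.Iic L).indicator (wt a c) u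

/-- the part near infinity -/
noncomputable def wB (a c L u : ℝ) : ℝ := (Set.Ioi L).indicator (fun u => wt a c u * (L / u)) u

theorem wA_int {a : ℝ} (ha : 0 < a) (c L : ℝ) : Integrable (wA a c L) :=
  (int_wt ha c).indicator measurableSet_Iic

theorem wB_int {a : ℝ} (ha : 0 < a) {c L : ℝ} (hL : 0 < L) : Integrable (wB a c L) := by
  refine (int_wt ha c).mono ?_ ?_
  · refine AEStronglyMeasurable.indicator ?_ measurableSet_Ioi
    exact (int_wt ha c).1.mul (by fun_prop : Measurable fun u : ℝ => L / u).aestronglyMeasurable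
  · refine Filter.Eventually.of_forall fun u => ?_
    unfold wB
    by_cases hu : u ∈ Set.Ioi L
    · rw [Set.indicator_of_mem hu, norm_mul]
      have h1 : L < u := hu
      have h0 : 0 < u := hL.trans h1
      have h2 : ‖L / u‖ ≤ 1 := by
        rw [Real.norm_eq_abs, abs_of_pos (by positivity), div_le_one (by linarith)]
        exact h1.le
      calc ‖wt a c u‖ * ‖L / u‖ ≤ ‖wt a c u‖ * 1 :=
            mul_le_mul_of_nonneg_left h2 (norm_nonneg _)
        _ = ‖wt a c u‖ := mul_one _
    · rw [Set.indicator_of_notMem hu, norm_zero]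
      exact norm_nonneg _

theorem wA_norm {a c L : ℝ} (ha : 0 < a) (hc : 0 ≤ c) (hL : 0 < L) :
    ∫⁻ u : ℝ, ‖wA a c L u‖ₑ ≤ ENNReal.ofReal (c / a * L ^ a) := by
  have hint : IntegrableOn (fun u : ℝ => c * u ^ (a - 1)) (Set.Ioc 0 L) := by
    have h1 : IntervalIntegrable (fun u : ℝ => u ^ (a - 1)) volume 0 L :=
      intervalIntegral.intervalIntegrable_rpow' (by linarith)
    exact ((intervalIntegrable_iff_integrableOn_Ioc_of_le hL.le).1 h1).const_mul c
  have h2 : ∫ u in Set.Ioc 0 L, c * u ^ (a - 1) = c / a * L ^ a := by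
    rw [integral_const_mul, ← intervalIntegral.integral_of_le hL.le,
      integral_rpow (Or.inl (by linarith)), sub_add_cancel, Real.zero_rpow ha.ne']
    ring
  rw [← h2, ofReal_integral_eq_lintegral_ofReal hint
    (ae_restrict_of_forall_mem measurableSet_Ioc fun u hu => by
      have : 0 < u := hu.1
      positivity), ← lintegral_indicator measurableSet_Ioc]
  refine lintegral_mono fun u => ?_
  by_cases hu : u ∈ Set.Ioc 0 L
  · rw [Set.indicator_of_mem hu]
    unfold wA
    rw [Set.indicator_of_mem (show u ∈ Set.Iic L from hu.2), Real.enorm_eq_ofReal (wt_nonneg hc u)]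
    exact ENNReal.ofReal_le_ofReal (wt_le hc hu.1)
  · rw [Set.indicator_of_notMem hu]
    have : wA a c L u = 0 := by
      unfold wA
      by_cases h3 : u ∈ Set.Iic L
      · rw [Set.indicator_of_mem h3]
        apply wt_out
        by_contra h4
        push Not at h4
        exact hu ⟨h4, h3⟩
      · exact Set.indicator_of_notMem h3 _
    rw [this, enorm_zero]

theorem wB_norm {a c L : ℝ} (ha : a < 1) (hc : 0 ≤ c) (hL : 0 < L) :
    ∫⁻ u : ℝ, ‖wB a c L u‖ₑ ≤ ENNReal.ofReal (c / (1 - a) * L ^ a) := by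
  have hint : IntegrableOn (fun u : ℝ => c * L * u ^ (a - 2)) (Set.Ioi L) :=
    (integrableOn_Ioi_rpow_of_lt (by linarith) hL).const_mul _
  have h2 : ∫ u in Set.Ioi L, c * L * u ^ (a - 2) = c / (1 - a) * L ^ a := by
    rw [integral_const_mul, integral_Ioi_rpow_of_lt (by linarith) hL]
    have h3 : L ^ (a - 2 + 1) = L ^ a / L := by
      rw [show a - 2 + 1 = a - 1 by ring, Real.rpow_sub_one hL.ne']
    have h4 : a - 2 + 1 = -(1 - a) := by ring
    have h5 : (1 - a) ≠ 0 := by linarith
    rw [h3, h4]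
    field_simp
  rw [← h2, ofReal_integral_eq_lintegral_ofReal hint
    (ae_restrict_of_forall_mem measurableSet_Ioi fun u hu => by
      have h3 : L < u := hu
      have : 0 < u := hL.trans h3
      positivity), ← lintegral_indicator measurableSet_Ioi]
  refine lintegral_mono fun u => ?_
  by_cases hu : u ∈ Set.Ioi L
  · rw [Set.indicator_of_mem hu]
    unfold wB
    have h3 : L < u := hu
    have h4 : 0 < u := hL.trans h3
    rw [Set.indicator_of_mem hu, Real.enorm_eq_ofReal
      (mul_nonneg (wt_nonneg hc u) (by positivity))]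
    refine ENNReal.ofReal_le_ofReal ?_
    calc wt a c u * (L / u) ≤ c * u ^ (a - 1) * (L / u) :=
          mul_le_mul_of_nonneg_right (wt_le hc h4) (by positivity)
      _ = c * L * u ^ (a - 2) := by
          have h5 : u ^ (a - 1) = u ^ (a - 2) * u := by
            rw [show a - 1 = a - 2 + 1 by ring, Real.rpow_add_one h4.ne']
          rw [h5]
          field_simp
  · rw [Set.indicator_of_notMem hu]
    unfold wB
    rw [Set.indicator_of_notMem hu, enorm_zero]

end Pool.Agent.N297.LPK
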