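import Pool.Agent.N297.LS.LpkA
import Pool.Agent.N297.LS.LpkB

/-!
# Project LG, leaf LPK: Bessel potentials on dyadic shells
-/

set_option autoImplicit false

namespace Pool.Agent.N297.LPK

open MeasureTheory Pool.Agent.N303.LS
open scoped ENNReal FourierTransform RealInnerProductSpace SchwartzMap

variable {d : ℕ}

theorem fou_cont (g : 𝓢(E d, ℂ)) : Continuous (𝓕 (g : E d → ℂ)) := by
  rw [← SchwartzMap.fourier_coe]
  exact (𝓕 g).continuous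

theorem fou_int (g : 𝓢(E d, ℂ)) : Integrable (𝓕 (g : E d → ℂ)) := by
  rw [← SchwartzMap.fourier_coe]
  exact (𝓕 g).integrable

theorem inv_fou (g : 𝓢(E d, ℂ)) : inv (𝓕 (g : E d → ℂ)) = (g : E d → ℂ) := by
  have h := g.continuous.fourierInv_fourier_eq g.integrable (fou_int g)
  funext x
  have h1 : inv (𝓕 (g : E d → ℂ)) x = 𝓕⁻ (𝓕 (g : E d → ℂ)) x := by
    rw [Real.fourierInv_eq']
    unfold inv
    refine integral_congr_ae (Filter.Eventually.of_forall fun ξ => ?_)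
    simp only [smul_eq_mul]
    rw [real_inner_comm]
  rw [h1, h]

theorem ker_cont : Continuous fun q : E d × E d =>
    Complex.exp (((2 * Real.pi * ⟪q.1, q.2⟫ : ℝ) : ℂ) * Complex.I) := by
  have h1 : Continuous fun q : E d × E d => ⟪q.1, q.2⟫ := continuous_inner
  exact Complex.continuous_exp.comp
    ((Complex.continuous_ofReal.comp (continuous_const.mul h1)).mul continuous_const)

theorem inv_meas {F : E d → ℂ} (hF : StronglyMeasurable F) : StronglyMeasurable (inv F) := by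
  unfold inv
  exact (ker_cont.stronglyMeasurable.mul
    (hF.comp_measurable measurable_snd)).integral_prod_right'

theorem int_ker {F : E d → ℂ} (hF : Integrable F) (x : E d) : Integrable fun ξ : E d =>
    Complex.exp (((2 * Real.pi * ⟪x, ξ⟫ : ℝ) : ℂ) * Complex.I) * F ξ := by
  have hc : Continuous fun ξ : E d =>
      Complex.exp (((2 * Real.pi * ⟪x, ξ⟫ : ℝ) : ℂ) * Complex.I) :=
    ker_cont.comp (Continuous.prodMk_right x)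
  refine hF.mono (hc.aestronglyMeasurable.mul hF.1) (Filter.Eventually.of_forall fun ξ => ?_)
  rw [norm_mul, Complex.norm_exp_ofReal_mul_I, one_mul]

theorem inv_add {F G : E d → ℂ} (hF : Integrable F) (hG : Integrable G) (x : E d) :
    inv (fun ξ => F ξ + G ξ) x = inv F x + inv G x := by
  unfold inv
  rw [← integral_add (int_ker hF x) (int_ker hG x)]
  congr 1
  funext ξ
  ring

/-! ### the symbol -/

theorem sq_sqrt_smul {v : ℝ} (hv : 0 ≤ v) (ξ : E d) : ‖Real.sqrt v • ξ‖ ^ 2 = v * ‖ξ‖ ^ 2 := by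
  rw [norm_smul, mul_pow, Real.norm_eq_abs, sq_abs, Real.sq_sqrt hv]

theorem coe_int (f : ℝ → ℝ) : ((∫ v, f v : ℝ) : ℂ) = ∫ v, ((f v : ℝ) : ℂ) :=
  (integral_ofReal (𝕜 := ℂ)).symm

theorem sym_A {G₁ : 𝓢(E d, ℂ)} (hG₁ : ∀ ξ, 𝓕 (G₁ : E d → ℂ) ξ =
    ((Real.exp (-(4 * Real.pi ^ 2 * ‖ξ‖ ^ 2)) : ℝ) : ℂ)) (a c L : ℝ) (ξ : E d) :
    ∫ v : ℝ, ((wA a c L v : ℝ) : ℂ) * 𝓕 (G₁ : E d → ℂ) (Real.sqrt v • ξ) =
      ((∫ v : ℝ, wA a c L v * Real.exp (-(4 * Real.pi ^ 2 * (v * ‖ξ‖ ^ 2))) : ℝ) : ℂ) := by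
  rw [coe_int]
  congr 1
  funext v
  rcases le_or_gt v 0 with hv | hv
  · have h1 : wA a c L v = 0 := by
      unfold wA
      by_cases h2 : v ∈ Set.Iic L
      · rw [Set.indicator_of_mem h2, wt_out hv]
      · exact Set.indicator_of_notMem h2 _
    rw [h1]
    simp
  · rw [hG₁, sq_sqrt_smul hv.le]
    push_cast
    rfl

theorem sym_B {G₂ : 𝓢(E d, ℂ)} (hG₂ : ∀ ξ, 𝓕 (G₂ : E d → ℂ) ξ =
    ((‖ξ‖ ^ 2 * Real.exp (-(4 * Real.pi ^ 2 * ‖ξ‖ ^ 2)) : ℝ) : ℂ)) (a c : ℝ) {L : ℝ} (hL : 0 < L)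
    (ξ : E d) :
    ∫ v : ℝ, ((wB a c L v : ℝ) : ℂ) * 𝓕 (G₂ : E d → ℂ) (Real.sqrt v • ξ) =
      ((L * ‖ξ‖ ^ 2 * ∫ v : ℝ, (Set.Ioi L).indicator (wt a c) v *
        Real.exp (-(4 * Real.pi ^ 2 * (v * ‖ξ‖ ^ 2))) : ℝ) : ℂ) := by
  rw [← integral_const_mul, coe_int]
  congr 1
  funext v
  unfold wB
  by_cases h2 : v ∈ Set.Ioi L
  · have h3 : 0 < v := hL.trans h2
    rw [Set.indicator_of_mem h2, Set.indicator_of_mem h2, hG₂, sq_sqrt_smul h3.le]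
    rw [← Complex.ofReal_mul]
    congr 1
    field_simp
  · rw [Set.indicator_of_notMem h2, Set.indicator_of_notMem h2]
    simp

theorem exp_bdd (w : ℝ → ℝ) (hw : Integrable w) (h0 : ∀ v < 0, w v = 0) (ξ : E d) :
    Integrable fun v : ℝ => w v * Real.exp (-(4 * Real.pi ^ 2 * (v * ‖ξ‖ ^ 2))) := by
  refine hw.mono (hw.1.mul (by fun_prop : Continuous fun v : ℝ =>
    Real.exp (-(4 * Real.pi ^ 2 * (v * ‖ξ‖ ^ 2)))).aestronglyMeasurable)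
    (Filter.Eventually.of_forall fun v => ?_)
  rcases lt_or_ge v 0 with hv | hv
  · rw [h0 v hv]
    simp
  · rw [norm_mul]
    have h1 : ‖Real.exp (-(4 * Real.pi ^ 2 * (v * ‖ξ‖ ^ 2)))‖ ≤ 1 := by
      rw [Real.norm_eq_abs, abs_of_pos (Real.exp_pos _), Real.exp_le_one_iff]
      have : 0 ≤ 4 * Real.pi ^ 2 * (v * ‖ξ‖ ^ 2) := by positivity
      linarith
    calc ‖w v‖ * ‖Real.exp (-(4 * Real.pi ^ 2 * (v * ‖ξ‖ ^ 2)))‖ ≤ ‖w v‖ * 1 :=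
          mul_le_mul_of_nonneg_left h1 (norm_nonneg _)
      _ = ‖w v‖ := mul_one _

theorem sym_AB {a : ℝ} (ha : 0 < a) (L : ℝ) (ξ : E d) :
    (∫ v : ℝ, wA a (Real.Gamma a)⁻¹ L v * Real.exp (-(4 * Real.pi ^ 2 * (v * ‖ξ‖ ^ 2)))) +
      ∫ v : ℝ, (Set.Ioi L).indicator (wt a (Real.Gamma a)⁻¹) v *
        Real.exp (-(4 * Real.pi ^ 2 * (v * ‖ξ‖ ^ 2))) =
      (1 + 4 * Real.pi ^ 2 * ‖ξ‖ ^ 2) ^ (-a) := by
  have hz : ∀ v < 0, wt a (Real.Gamma a)⁻¹ v = 0 := fun v hv => wt_out hv.le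
  rw [← integral_add (exp_bdd _ (wA_int ha _ L) (fun v hv => by
      unfold wA
      by_cases h2 : v ∈ Set.Iic L
      · rw [Set.indicator_of_mem h2, hz v hv]
      · exact Set.indicator_of_notMem h2 _) ξ)
    (exp_bdd _ ((int_wt ha _).indicator measurableSet_Ioi) (fun v hv => by
      by_cases h2 : v ∈ Set.Ioi L
      · rw [Set.indicator_of_mem h2, hz v hv]
      · exact Set.indicator_of_notMem h2 _) ξ), ← gamma_int ha ξ]
  congr 1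
  funext v
  rw [← add_mul]
  congr 1
  unfold wA
  by_cases h2 : v ≤ L
  · rw [Set.indicator_of_mem (show v ∈ Set.Iic L from h2),
      Set.indicator_of_notMem (show v ∉ Set.Ioi L from not_lt.2 h2), add_zero]
  · rw [Set.indicator_of_notMem (show v ∉ Set.Iic L from h2),
      Set.indicator_of_mem (show v ∈ Set.Ioi L from not_le.1 h2), zero_add]

theorem symbol {χ : E d → ℂ} (hχ0 : χ 0 = 0) {K₁ K₂ G₁ G₂ : 𝓢(E d, ℂ)}
    (hK₁ : ∀ ξ, 𝓕 (K₁ : E d → ℂ) ξ = χ ξ)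
    (hK₂ : ∀ ξ, 𝓕 (K₂ : E d → ℂ) ξ = ((‖ξ‖ ^ 2)⁻¹ : ℝ) • χ ξ)
    (hG₁ : ∀ ξ, 𝓕 (G₁ : E d → ℂ) ξ = ((Real.exp (-(4 * Real.pi ^ 2 * ‖ξ‖ ^ 2)) : ℝ) : ℂ))
    (hG₂ : ∀ ξ, 𝓕 (G₂ : E d → ℂ) ξ =
      ((‖ξ‖ ^ 2 * Real.exp (-(4 * Real.pi ^ 2 * ‖ξ‖ ^ 2)) : ℝ) : ℂ))
    {s l : ℝ} (hs : 0 < s) (hl : 0 < l) (ξ : E d) :
    χ (l • ξ) * bes (-s) ξ =
      𝓕 (K₁ : E d → ℂ) (l • ξ) * (∫ v : ℝ, ((wA (s / 2) (Real.Gamma (s / 2))⁻¹ (l ^ 2) v : ℝ) : ℂ) *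
        𝓕 (G₁ : E d → ℂ) (Real.sqrt v • ξ)) +
      𝓕 (K₂ : E d → ℂ) (l • ξ) * (∫ v : ℝ, ((wB (s / 2) (Real.Gamma (s / 2))⁻¹ (l ^ 2) v : ℝ) : ℂ) *
        𝓕 (G₂ : E d → ℂ) (Real.sqrt v • ξ)) := by
  rw [hK₁, hK₂, sym_A hG₁, sym_B hG₂ _ _ (by positivity : 0 < l ^ 2)]
  by_cases hξ : ξ = 0
  · rw [hξ, smul_zero, hχ0]
    simp
  · have hn : ‖ξ‖ ≠ 0 := norm_ne_zero_iff.2 hξ
    have key : ∀ I J : ℝ, χ (l • ξ) * ((I + J : ℝ) : ℂ) = χ (l • ξ) * (I : ℂ) +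
        ((((l * ‖ξ‖) ^ 2)⁻¹ : ℝ) : ℂ) * χ (l • ξ) * ((l ^ 2 * ‖ξ‖ ^ 2 * J : ℝ) : ℂ) := by
      intro I J
      have h1 : (l : ℂ) ≠ 0 := by exact_mod_cast hl.ne'
      have h2 : ((‖ξ‖ : ℝ) : ℂ) ≠ 0 := by exact_mod_cast hn
      push_cast
      field_simp
    unfold bes
    rw [show -s / 2 = -(s / 2) by ring, ← sym_AB (by positivity : 0 < s / 2) (l ^ 2) ξ, norm_smul,
      Real.norm_of_nonneg hl.le, Complex.real_smul]
    exact key _ _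

/-! ### the main part -/

theorem wt_meas (a c : ℝ) : Measurable (wt a c) := by
  unfold wt
  exact (by fun_prop : Measurable fun u : ℝ => Real.exp (-u) * u ^ (a - 1) * c).indicator
    measurableSet_Ioi

theorem mA_meas {K₁ G₁ : 𝓢(E d, ℂ)} (a c L l : ℝ) (g : 𝓢(E d, ℂ)) :
    StronglyMeasurable fun ξ : E d => 𝓕 (K₁ : E d → ℂ) (l • ξ) *
      (∫ v : ℝ, ((wA a c L v : ℝ) : ℂ) * 𝓕 (G₁ : E d → ℂ) (Real.sqrt v • ξ)) *
        𝓕 (g : E d → ℂ) ξ := by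
  have h1 : Continuous fun ξ : E d => 𝓕 (K₁ : E d → ℂ) (l • ξ) :=
    (fou_cont K₁).comp (continuous_const_smul l)
  have h2 : StronglyMeasurable fun ξ : E d =>
      ∫ v : ℝ, ((wA a c L v : ℝ) : ℂ) * 𝓕 (G₁ : E d → ℂ) (Real.sqrt v • ξ) := by
    have h3 : Measurable (wA a c L) := by
      unfold wA
      exact (wt_meas a c).indicator measurableSet_Iic
    have h4 : Continuous fun q : E d × ℝ => 𝓕 (G₁ : E d → ℂ) (Real.sqrt q.2 • q.1) :=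
      (fou_cont G₁).comp ((Real.continuous_sqrt.comp continuous_snd).smul continuous_fst)
    have h5 : StronglyMeasurable fun q : E d × ℝ =>
        ((wA a c L q.2 : ℝ) : ℂ) * 𝓕 (G₁ : E d → ℂ) (Real.sqrt q.2 • q.1) :=
      (Complex.measurable_ofReal.comp (h3.comp measurable_snd)).stronglyMeasurable.mul
        h4.stronglyMeasurable
    exact h5.integral_prod_right'
  exact (h1.stronglyMeasurable.mul h2).mul (fou_cont g).stronglyMeasurable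

theorem mA_int {K₁ G₁ : 𝓢(E d, ℂ)}
    (hG₁ : ∀ ξ, 𝓕 (G₁ : E d → ℂ) ξ = ((Real.exp (-(4 * Real.pi ^ 2 * ‖ξ‖ ^ 2)) : ℝ) : ℂ))
    {a : ℝ} (ha : 0 < a) (c L l : ℝ) (g : 𝓢(E d, ℂ)) :
    Integrable fun ξ : E d => 𝓕 (K₁ : E d → ℂ) (l • ξ) *
      (∫ v : ℝ, ((wA a c L v : ℝ) : ℂ) * 𝓕 (G₁ : E d → ℂ) (Real.sqrt v • ξ)) *
        𝓕 (g : E d → ℂ) ξ := by
  obtain ⟨B, hB⟩ : ∃ B : ℝ, ∀ ξ, ‖𝓕 (K₁ : E d → ℂ) ξ‖ ≤ B := by
    refine ⟨(SchwartzMap.seminorm ℝ 0 0) (𝓕 K₁), fun ξ => ?_⟩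
    rw [← SchwartzMap.fourier_coe]
    exact SchwartzMap.norm_le_seminorm ℝ (𝓕 K₁) ξ
  have hB0 : 0 ≤ B := (norm_nonneg _).trans (hB 0)
  have hM : ∀ ξ : E d, ‖∫ v : ℝ, ((wA a c L v : ℝ) : ℂ) *
      𝓕 (G₁ : E d → ℂ) (Real.sqrt v • ξ)‖ ≤ ∫ v : ℝ, ‖wA a c L v‖ := by
    intro ξ
    refine (norm_integral_le_integral_norm _).trans ?_
    refine integral_mono_of_nonneg (Filter.Eventually.of_forall fun v => norm_nonneg _)
      (wA_int ha c L).norm (Filter.Eventually.of_forall fun v => ?_)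
    show ‖((wA a c L v : ℝ) : ℂ) * 𝓕 (G₁ : E d → ℂ) (Real.sqrt v • ξ)‖ ≤ ‖wA a c L v‖
    rw [norm_mul, Complex.norm_real]
    have h1 : ‖𝓕 (G₁ : E d → ℂ) (Real.sqrt v • ξ)‖ ≤ 1 := by
      rw [hG₁, Complex.norm_real, Real.norm_eq_abs, abs_of_pos (Real.exp_pos _),
        Real.exp_le_one_iff]
      have : 0 ≤ 4 * Real.pi ^ 2 * ‖Real.sqrt v • ξ‖ ^ 2 := by positivity
      linarith
    calc ‖wA a c L v‖ * ‖𝓕 (G₁ : E d → ℂ) (Real.sqrt v • ξ)‖ ≤ ‖wA a c L v‖ * 1 :=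
          mul_le_mul_of_nonneg_left h1 (norm_nonneg _)
      _ = ‖wA a c L v‖ := mul_one _
  refine ((fou_int g).norm.const_mul (B * ∫ v : ℝ, ‖wA a c L v‖)).mono'
    (mA_meas a c L l g).aestronglyMeasurable
    (Filter.Eventually.of_forall fun ξ => ?_)
  rw [norm_mul, norm_mul]
  exact mul_le_mul_of_nonneg_right (mul_le_mul (hB _) (hM ξ) (norm_nonneg _) hB0) (norm_nonneg _)

theorem schw_fin (K : 𝓢(E d, ℂ)) : (∫⁻ x : E d, ‖K x‖ₑ) ≠ ⊤ := by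
  have h := (K.integrable (μ := volume)).2
  exact h.ne

theorem bound_one {W k₁ k₂ : ℝ≥0∞} {cA X p : ℝ} (hp : 0 ≤ p) (hcA : 0 ≤ cA) (hX : 0 ≤ X)
    (hW : W ≤ ENNReal.ofReal (cA * X)) (h1 : k₁ ≠ ⊤) (h2 : k₂ ≠ ⊤) :
    (W * k₁ * k₂) ^ p ≤ ENNReal.ofReal ((cA * (k₁ * k₂).toReal) ^ p * X ^ p) := by
  have h3 : k₁ * k₂ = ENNReal.ofReal (k₁ * k₂).toReal :=
    (ENNReal.ofReal_toReal (ENNReal.mul_ne_top h1 h2)).symm
  have h4 : W * k₁ * k₂ ≤ ENNReal.ofReal (cA * (k₁ * k₂).toReal * X) := by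
    rw [mul_assoc]
    calc W * (k₁ * k₂) ≤ ENNReal.ofReal (cA * X) * (k₁ * k₂) := mul_le_mul_left hW _
      _ = ENNReal.ofReal (cA * X) * ENNReal.ofReal (k₁ * k₂).toReal := by rw [← h3]
      _ = ENNReal.ofReal (cA * (k₁ * k₂).toReal * X) := by
          rw [← ENNReal.ofReal_mul (by positivity)]
          congr 1
          ring
  refine (ENNReal.rpow_le_rpow h4 hp).trans (le_of_eq ?_)
  rw [ENNReal.ofReal_rpow_of_nonneg (by positivity) hp, Real.mul_rpow (by positivity) hX]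

theorem t_lpk (h : S_LPA) : S_LPK := by
  intro d
  obtain ⟨χ, K₁, K₂, hχt, hχ1, hχ0, hK₁, hK₂⟩ := schw d
  obtain ⟨G₁, hG₁⟩ := g1 d
  obtain ⟨G₂, hG₂⟩ := g2 d
  refine ⟨fun k ξ => χ (((2 : ℝ) ^ k)⁻¹ • ξ), fun k => ?_, ?_, ?_⟩
  · exact hχt.comp ((((2 : ℝ) ^ k)⁻¹ • ContinuousLinearMap.id ℝ (E d)).hasTemperateGrowth)
  · rintro k ξ ⟨i, hi⟩ h2
    have hk : (0 : ℝ) < 2 ^ k := by positivity
    have e : ∀ i, |(((2 : ℝ) ^ k)⁻¹ • ξ) i| = (2 ^ k)⁻¹ * |ξ i| := by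
      intro i
      rw [PiLp.smul_apply, smul_eq_mul, abs_mul, abs_of_pos (by positivity)]
    refine hχ1 _ ⟨i, ?_⟩ fun j => ?_
    · rw [e, le_inv_mul_iff₀ hk]
      exact hi
    · rw [e, inv_mul_le_iff₀ hk]
      exact h2 j
  · intro s p hs0 hs2 hp
    have hp0 : 0 ≤ p := by linarith
    have ha : 0 < s / 2 := by linarith
    have ha1 : s / 2 < 1 := by linarith
    obtain ⟨c, hc⟩ : ∃ c, c = (Real.Gamma (s / 2))⁻¹ := ⟨_, rfl⟩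
    have hc0 : 0 ≤ c := by
      rw [hc]
      exact (inv_pos.2 (Real.Gamma_pos_of_pos ha)).le
    obtain ⟨k₁, hk₁⟩ : ∃ k₁, k₁ = ((∫⁻ x : E d, ‖K₁ x‖ₑ) * ∫⁻ x : E d, ‖G₁ x‖ₑ).toReal := ⟨_, rfl⟩
    obtain ⟨k₂, hk₂⟩ : ∃ k₂, k₂ = ((∫⁻ x : E d, ‖K₂ x‖ₑ) * ∫⁻ x : E d, ‖G₂ x‖ₑ).toReal := ⟨_, rfl⟩
    have hk₁0 : 0 ≤ k₁ := by rw [hk₁]; exact ENNReal.toReal_nonneg
    have hk₂0 : 0 ≤ k₂ := by rw [hk₂]; exact ENNReal.toReal_nonneg
    have hcA : 0 ≤ c / (s / 2) := by positivity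
    have hcB : 0 ≤ c / (1 - s / 2) := div_nonneg hc0 (by linarith)
    refine ⟨2 ^ (p - 1) * ((c / (s / 2) * k₁) ^ p + (c / (1 - s / 2) * k₂) ^ p) + 1,
      by positivity, ?_⟩
    intro k g h' hh
    obtain ⟨l, hl⟩ : ∃ l : ℝ, l = ((2 : ℝ) ^ k)⁻¹ := ⟨_, rfl⟩
    have hl0 : 0 < l := by rw [hl]; positivity
    have hL0 : 0 < l ^ 2 := by positivity
    -- the power
    have hpow : ((l ^ 2) ^ (s / 2)) ^ p = ((2 : ℝ) ^ (-s * p)) ^ k := by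
      rw [← Real.rpow_natCast l 2, ← Real.rpow_mul hl0.le, ← Real.rpow_mul hl0.le, hl,
        Real.inv_rpow (by positivity), ← Real.rpow_natCast 2 k, ← Real.rpow_mul (by norm_num),
        ← Real.rpow_neg (by norm_num), ← Real.rpow_natCast _ k, ← Real.rpow_mul (by norm_num)]
      congr 1
      push_cast
      ring
    set FA : E d → ℂ := fun ξ => 𝓕 (K₁ : E d → ℂ) (l • ξ) *
      (∫ v : ℝ, ((wA (s / 2) c (l ^ 2) v : ℝ) : ℂ) * 𝓕 (G₁ : E d → ℂ) (Real.sqrt v • ξ)) *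
        𝓕 (g : E d → ℂ) ξ with hFA
    set FB : E d → ℂ := fun ξ => 𝓕 (K₂ : E d → ℂ) (l • ξ) *
      (∫ v : ℝ, ((wB (s / 2) c (l ^ 2) v : ℝ) : ℂ) * 𝓕 (G₂ : E d → ℂ) (Real.sqrt v • ξ)) *
        𝓕 (g : E d → ℂ) ξ with hFB
    have hsum : ∀ ξ, 𝓕 (h' : E d → ℂ) ξ = FA ξ + FB ξ := by
      intro ξ
      rw [hh ξ, ← mul_assoc]
      show χ (((2 : ℝ) ^ k)⁻¹ • ξ) * bes (-s) ξ * 𝓕 (g : E d → ℂ) ξ = _
      rw [← hl, symbol hχ0 hK₁ hK₂ hG₁ hG₂ hs0 hl0, hFA, hFB, hc]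
      ring
    have hFAi : Integrable FA := mA_int hG₁ ha c (l ^ 2) l g
    have hFBi : Integrable FB := by
      have e1 : FB = fun ξ => 𝓕 (h' : E d → ℂ) ξ - FA ξ := by
        funext ξ
        rw [hsum ξ]
        ring
      rw [e1]
      exact (fou_int h').sub hFAi
    have hx : ∀ x, h' x = inv FA x + inv FB x := by
      intro x
      rw [← inv_add hFAi hFBi, ← funext hsum, inv_fou]
    have hA := h d K₁ G₁ (wA (s / 2) c (l ^ 2)) l (wA_int ha c _) p hp g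
    have hB := h d K₂ G₂ (wB (s / 2) c (l ^ 2)) l (wB_int ha hL0) p hp g
    have hA2 := bound_one hp0 hcA (by positivity) (wA_norm ha hc0 hL0) (schw_fin K₁) (schw_fin G₁)
    have hB2 := bound_one hp0 hcB (by positivity) (wB_norm ha1 hc0 hL0) (schw_fin K₂) (schw_fin G₂)
    rw [← hk₁, hpow] at hA2
    rw [← hk₂, hpow] at hB2
    have hmeas : Measurable fun x => ‖inv FA x‖ₑ ^ p :=
      ((inv_meas (mA_meas _ _ _ _ g)).measurable.enorm).pow_const p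
    have h2p : ENNReal.ofReal (2 ^ (p - 1)) = (2 : ℝ≥0∞) ^ (p - 1) := by
      rw [← ENNReal.ofReal_rpow_of_nonneg (by norm_num) (by linarith)]
      norm_num
    obtain ⟨Y, hY⟩ : ∃ Y, Y = ((2 : ℝ) ^ (-s * p)) ^ k := ⟨_, rfl⟩
    have hY0 : 0 ≤ Y := by rw [hY]; positivity
    rw [← hY] at hA2 hB2 ⊢
    calc ∫⁻ x : E d, ‖h' x‖ₑ ^ p ≤ ∫⁻ x : E d, (2 : ℝ≥0∞) ^ (p - 1) *
          (‖inv FA x‖ₑ ^ p + ‖inv FB x‖ₑ ^ p) := by
          refine lintegral_mono fun x => ?_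
          rw [hx x]
          exact (ENNReal.rpow_le_rpow (enorm_add_le _ _) hp0).trans
            (ENNReal.rpow_add_le_mul_rpow_add_rpow _ _ hp)
      _ = (2 : ℝ≥0∞) ^ (p - 1) * ((∫⁻ x : E d, ‖inv FA x‖ₑ ^ p) +
          ∫⁻ x : E d, ‖inv FB x‖ₑ ^ p) := by
          rw [lintegral_const_mul' _ _ (by
            exact ENNReal.rpow_ne_top_of_nonneg (by linarith) (by norm_num)),
            lintegral_add_left hmeas]
      _ ≤ ENNReal.ofReal (2 ^ (p - 1)) * ((ENNReal.ofReal ((c / (s / 2) * k₁) ^ p * Y) +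
          ENNReal.ofReal ((c / (1 - s / 2) * k₂) ^ p * Y)) * ∫⁻ x : E d, ‖g x‖ₑ ^ p) := by
          rw [h2p, add_mul]
          refine mul_le_mul_right (add_le_add ?_ ?_) _
          · exact hA.trans (mul_le_mul_left hA2 _)
          · exact hB.trans (mul_le_mul_left hB2 _)
      _ = ENNReal.ofReal ((2 ^ (p - 1) * ((c / (s / 2) * k₁) ^ p +
          (c / (1 - s / 2) * k₂) ^ p)) * Y) * ∫⁻ x : E d, ‖g x‖ₑ ^ p := by
          rw [← mul_assoc, ← ENNReal.ofReal_add (by positivity) (by positivity),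
            ← ENNReal.ofReal_mul (by positivity)]
          congr 2
          ring
      _ ≤ _ := by
          refine mul_le_mul_left (ENNReal.ofReal_le_ofReal ?_) _
          refine mul_le_mul_of_nonneg_right ?_ hY0
          linarith

end Pool.Agent.N297.LPK
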