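import Pool.Agent.N303.LS.Stm6
import Pool.Agent.TH274.Wig.Gauss

/-!
# Project LG, leaf LPK, part A: Schwartz functions
-/

set_option autoImplicit false

namespace Pool.Agent.N297.LPK

open MeasureTheory Pool.Agent.N303.LS
open scoped ENNReal FourierTransform RealInnerProductSpace SchwartzMap ContDiff

theorem inv_of {d : ℕ} (φ : 𝓢(E d, ℂ)) : ∃ G : 𝓢(E d, ℂ), ∀ ξ, 𝓕 (G : E d → ℂ) ξ = φ ξ :=
  ⟨𝓕⁻ φ, fun ξ => by rw [← SchwartzMap.fourier_coe, FourierTransform.fourier_fourierInv_eq]⟩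

theorem g1 (d : ℕ) : ∃ G : 𝓢(E d, ℂ), ∀ ξ, 𝓕 (G : E d → ℂ) ξ =
    ((Real.exp (-(4 * Real.pi ^ 2 * ‖ξ‖ ^ 2)) : ℝ) : ℂ) := by
  obtain ⟨G, hG⟩ := inv_of (Pool.Agent.TH274.Wig.gauss d ((4 * Real.pi ^ 2 : ℝ) : ℂ)
    (by rw [Complex.ofReal_re]; positivity))
  refine ⟨G, fun ξ => ?_⟩
  rw [hG, Pool.Agent.TH274.Wig.gauss_apply]
  push_cast
  congr 1
  ring

theorem g2 (d : ℕ) : ∃ G : 𝓢(E d, ℂ), ∀ ξ, 𝓕 (G : E d → ℂ) ξ =
    ((‖ξ‖ ^ 2 * Real.exp (-(4 * Real.pi ^ 2 * ‖ξ‖ ^ 2)) : ℝ) : ℂ) := by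
  obtain ⟨G, hG⟩ := inv_of (SchwartzMap.smulLeftCLM ℂ (fun x : E d => ‖x‖ ^ 2)
    (Pool.Agent.TH274.Wig.gauss d ((4 * Real.pi ^ 2 : ℝ) : ℂ)
    (by rw [Complex.ofReal_re]; positivity)))
  refine ⟨G, fun ξ => ?_⟩
  rw [hG, SchwartzMap.smulLeftCLM_apply_apply (Function.hasTemperateGrowth_norm_sq (E d)),
    Pool.Agent.TH274.Wig.gauss_apply, Complex.real_smul]
  push_cast
  congr 2
  ring

/-- the cut-off function -/
theorem bump2 (d : ℕ) : ∃ χ : E d → ℂ, ContDiff ℝ (⊤ : ℕ∞) χ ∧ HasCompactSupport χ ∧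
    (∀ ξ : E d, (∃ i, 3 / 4 ≤ |ξ i|) → (∀ i, |ξ i| ≤ 9 / 4) → χ ξ = 1) ∧
    ∀ ξ : E d, (∀ i, |ξ i| ≤ 1 / 2) → χ ξ = 0 := by
  have hco : ∀ i : Fin d, Continuous fun ξ : E d => |ξ i| := fun i =>
    (continuous_apply i |>.comp (PiLp.continuous_ofLp 2 _)).abs
  have hs : IsClosed ({ξ : E d | ∀ i, |ξ i| ≤ 1 / 2} ∪ {ξ : E d | ∃ i, 3 ≤ |ξ i|}) := by
    refine IsClosed.union ?_ ?_
    · have e : {ξ : E d | ∀ i, |ξ i| ≤ 1 / 2} = ⋂ i, {ξ : E d | |ξ i| ≤ 1 / 2} := by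
        ext ξ
        simp
      rw [e]
      exact isClosed_iInter fun i => isClosed_le (hco i) continuous_const
    · have e : {ξ : E d | ∃ i, 3 ≤ |ξ i|} = ⋃ i, {ξ : E d | 3 ≤ |ξ i|} := by
        ext ξ
        simp
      rw [e]
      exact isClosed_iUnion_of_finite fun i => isClosed_le continuous_const (hco i)
  have ht : IsClosed ({ξ : E d | ∃ i, 3 / 4 ≤ |ξ i|} ∩ {ξ : E d | ∀ i, |ξ i| ≤ 9 / 4}) := by
    refine IsClosed.inter ?_ ?_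
    · have e : {ξ : E d | ∃ i, 3 / 4 ≤ |ξ i|} = ⋃ i, {ξ : E d | 3 / 4 ≤ |ξ i|} := by
        ext ξ
        simp
      rw [e]
      exact isClosed_iUnion_of_finite fun i => isClosed_le continuous_const (hco i)
    · have e : {ξ : E d | ∀ i, |ξ i| ≤ 9 / 4} = ⋂ i, {ξ : E d | |ξ i| ≤ 9 / 4} := by
        ext ξ
        simp
      rw [e]
      exact isClosed_iInter fun i => isClosed_le (hco i) continuous_const
  have hd : Disjoint ({ξ : E d | ∀ i, |ξ i| ≤ 1 / 2} ∪ {ξ : E d | ∃ i, 3 ≤ |ξ i|})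
      ({ξ : E d | ∃ i, 3 / 4 ≤ |ξ i|} ∩ {ξ : E d | ∀ i, |ξ i| ≤ 9 / 4}) := by
    rw [Set.disjoint_left]
    rintro ξ (h | ⟨i, hi⟩) ⟨⟨j, hj⟩, h2⟩
    · have := h j
      linarith
    · have := h2 i
      linarith
  obtain ⟨f, hf0, hf1, -⟩ := exists_contMDiffMap_zero_one_of_isClosed (n := (⊤ : ℕ∞))
    (modelWithCornersSelf ℝ (E d)) hs ht hd
  have hfc : ContDiff ℝ (⊤ : ℕ∞) (f : E d → ℝ) := f.contMDiff.contDiff
  refine ⟨fun ξ => ((f ξ : ℝ) : ℂ), Complex.ofRealCLM.contDiff.comp hfc, ?_, ?_, ?_⟩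
  · refine HasCompactSupport.of_support_subset_isCompact
      (K := Metric.closedBall (0 : E d) (3 * d + 3)) (isCompact_closedBall _ _) ?_
    intro ξ hξ
    rw [Metric.mem_closedBall, dist_zero_right]
    by_contra hcon
    push Not at hcon
    apply hξ
    have hz : f ξ = 0 := by
      refine hf0 (Or.inr ?_)
      by_contra hno
      simp only [Set.mem_setOf_eq, not_exists, not_le] at hno
      have h1 : ‖ξ‖ ≤ 3 * d + 3 := by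
        rw [EuclideanSpace.norm_eq]
        refine Real.sqrt_le_iff.2 ⟨by positivity, ?_⟩
        calc ∑ i, ‖ξ i‖ ^ 2 ≤ ∑ _i : Fin d, (9 : ℝ) := by
              refine Finset.sum_le_sum fun i _ => ?_
              rw [Real.norm_eq_abs]
              have := hno i
              have h0 := abs_nonneg (ξ i)
              nlinarith
          _ = 9 * d := by simp [mul_comm]
          _ ≤ (3 * d + 3 : ℝ) ^ 2 := by nlinarith [(Nat.cast_nonneg d : (0 : ℝ) ≤ d)]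
      linarith
    simp [hz]
  · intro ξ h h'
    show ((f ξ : ℝ) : ℂ) = 1
    rw [show f ξ = 1 from hf1 ⟨h, h'⟩]
    norm_num
  · intro ξ h
    show ((f ξ : ℝ) : ℂ) = 0
    rw [show f ξ = 0 from hf0 (Or.inl h)]
    norm_num

theorem div_smooth {d : ℕ} {χ : E d → ℂ} (h1 : ContDiff ℝ (⊤ : ℕ∞) χ)
    (h0 : ∀ ξ : E d, (∀ i, |ξ i| ≤ 1 / 2) → χ ξ = 0) :
    ContDiff ℝ (⊤ : ℕ∞) fun ξ : E d => ((‖ξ‖ ^ 2)⁻¹ : ℝ) • χ ξ := by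
  rw [contDiff_iff_contDiffAt]
  intro ξ
  by_cases hξ : ξ = 0
  · subst hξ
    have hev : (fun ξ : E d => ((‖ξ‖ ^ 2)⁻¹ : ℝ) • χ ξ) =ᶠ[nhds 0] fun _ => 0 := by
      have hb : Metric.ball (0 : E d) (1 / 2) ∈ nhds (0 : E d) :=
        Metric.ball_mem_nhds _ (by norm_num)
      filter_upwards [hb] with ξ hξ
      rw [h0 ξ, smul_zero]
      intro i
      rw [mem_ball_zero_iff] at hξ
      have h2 := EuclideanSpace.norm_eq ξ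
      have h3 : |ξ i| ≤ ‖ξ‖ := by
        rw [← Real.norm_eq_abs]
        exact PiLp.norm_apply_le ξ i
      linarith
    exact (contDiffAt_const (c := (0 : ℂ))).congr_of_eventuallyEq hev
  · have h5 : ContDiffAt ℝ (⊤ : ℕ∞) (fun ξ : E d => ‖ξ‖ ^ 2) ξ := (contDiff_norm_sq ℝ).contDiffAt
    have h6 : ContDiffAt ℝ (⊤ : ℕ∞) (fun ξ : E d => ((‖ξ‖ ^ 2)⁻¹ : ℝ)) ξ :=
      h5.inv (by positivity)
    exact h6.smul h1.contDiffAt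

theorem schw (d : ℕ) : ∃ (χ : E d → ℂ) (K₁ K₂ : 𝓢(E d, ℂ)), χ.HasTemperateGrowth ∧
    (∀ ξ : E d, (∃ i, 3 / 4 ≤ |ξ i|) → (∀ i, |ξ i| ≤ 9 / 4) → χ ξ = 1) ∧ χ 0 = 0 ∧
    (∀ ξ, 𝓕 (K₁ : E d → ℂ) ξ = χ ξ) ∧
    ∀ ξ, 𝓕 (K₂ : E d → ℂ) ξ = ((‖ξ‖ ^ 2)⁻¹ : ℝ) • χ ξ := by
  obtain ⟨χ, h1, h2, h3, h4⟩ := bump2 d
  have h5 : HasCompactSupport fun ξ : E d => ((‖ξ‖ ^ 2)⁻¹ : ℝ) • χ ξ :=
    HasCompactSupport.smul_left (f := fun ξ : E d => ((‖ξ‖ ^ 2)⁻¹ : ℝ)) h2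
  obtain ⟨K₁, hK₁⟩ := inv_of (h2.toSchwartzMap h1)
  obtain ⟨K₂, hK₂⟩ := inv_of (h5.toSchwartzMap (div_smooth h1 h4))
  refine ⟨χ, K₁, K₂, h2.hasTemperateGrowth h1, h3, h4 0 (by simp), fun ξ => ?_, fun ξ => ?_⟩
  · rw [hK₁]
    rfl
  · rw [hK₂]
    rfl

end Pool.Agent.N297.LPK
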