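import Pool.Agent.N356.SP.Defs4

set_option autoImplicit false

/-! KS13: the real inequality `PI4`. -/

namespace Pool.Agent.N297.LS

open Finset Pool.Agent.H384R3.SPk Pool.Agent.N356.SP

theorem c4_pow : c4 ^ 4 = 2744 / 5 := by
  unfold c4
  rw [← Real.rpow_natCast, ← Real.rpow_mul (by norm_num)]
  norm_num

theorem c4_pos : 0 < c4 := by unfold c4; positivity

theorem c4_lb : 121 / 25 ≤ c4 := by
  by_contra h
  push Not at h
  have := pow_lt_pow_left₀ h c4_pos.le (n := 4) (by norm_num)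
  rw [c4_pow] at this
  norm_num at this

theorem c4_ub : c4 ≤ 48401 / 10000 := by
  by_contra h
  push Not at h
  have := pow_lt_pow_left₀ h (by norm_num) (n := 4) (by norm_num)
  rw [c4_pow] at this
  norm_num at this

/-- the polynomial inequality -/
theorem poly_main {x : ℝ} (h0 : 0 ≤ x) (h1 : x ^ 2 ≤ 3 / 25) :
    680512 / 1000 ≤ (97 + 50 * x ^ 2 - 547393 / 10000 - 46566240 / 1000000 * x
      - 2476068 / 100000 * x ^ 2 - 752304 / 100000 * x ^ 3 - x ^ 4) *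
      (1936 / 100 + 70 * (78199 / 100000) * (2 / 3) * x ^ 2 + 28 * (83154 / 100000) * x ^ 3) := by
  have hx : x ≤ 3465 / 10000 := by nlinarith
  have hM : 97 - 547393 / 10000 - 46566240 / 1000000 * x + 2251 / 100 * x ^ 2 ≤
      97 + 50 * x ^ 2 - 547393 / 10000 - 46566240 / 1000000 * x
      - 2476068 / 100000 * x ^ 2 - 752304 / 100000 * x ^ 3 - x ^ 4 := by
    have e1 : x ^ 3 ≤ 3465 / 10000 * x ^ 2 := by nlinarith [sq_nonneg x]
    have e2 : x ^ 4 ≤ 3 / 25 * x ^ 2 := by nlinarith [sq_nonneg x]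
    nlinarith [sq_nonneg x]
  have hR : 1936 / 100 - 1698 / 1000 * x + 4906 / 100 * x ^ 2 ≤
      1936 / 100 + 70 * (78199 / 100000) * (2 / 3) * x ^ 2 + 28 * (83154 / 100000) * x ^ 3 := by
    have e1 : 0 ≤ x * (x - 27 / 100) ^ 2 := by positivity
    nlinarith [sq_nonneg x]
  have hM0 : 0 ≤ 97 - 547393 / 10000 - 46566240 / 1000000 * x + 2251 / 100 * x ^ 2 := by
    nlinarith [sq_nonneg x]
  have hR0 : 0 ≤ 1936 / 100 - 1698 / 1000 * x + 4906 / 100 * x ^ 2 := by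
    nlinarith [sq_nonneg x]
  refine le_trans ?_ (mul_le_mul hM hR hR0 (hM0.trans hM))
  nlinarith [sq_nonneg (x * (x - 27 / 100)), sq_nonneg (x - 27 / 100), sq_nonneg x,
    sq_nonneg (x ^ 2 - 27 / 100 * x), sq_nonneg (x ^ 2 - 7 / 100)]

/-- KS13: the real inequality -/
theorem PI4 {y A2 A3 A4 A5 A6 A7 : ℝ} (hy0 : 0 ≤ y) (hy1 : y ≤ 3 / 25) (h2 : 0 ≤ A2) (h4 : 0 ≤ A4)
    (h6 : 0 ≤ A6) (h2' : 7 / c4 * A2 ≤ y)
    (h3 : A3 ^ 2 ≤ 217 / 250 * y ^ 2 * (y - 7 / c4 * A2)) (h4' : A4 ^ 2 ≤ A2 * A6)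
    (h6' : A6 ^ 2 ≤ A4 * y ^ 4) (h5 : A5 ^ 2 ≤ A2 * y ^ 4) (h7 : A7 ^ 2 ≤ A6 * y ^ 4) :
    1 + 28 * A2 + 56 * A3 + 70 * A4 + 56 * A5 + 28 * A6 + 8 * A7 + y ^ 4 ≤
      1 + 4 * c4 * y + 97 * y ^ 2 + 50 * y ^ 3 := by
  have hc0 := c4_pos
  have hc4 := c4_pow
  have hcl := c4_lb
  have hcu := c4_ub
  obtain ⟨x, hx0, hxy⟩ : ∃ x : ℝ, 0 ≤ x ∧ x ^ 2 = y := ⟨Real.sqrt y, Real.sqrt_nonneg y, Real.sq_sqrt hy0⟩
  obtain ⟨p, hp⟩ : ∃ p : ℝ, p = 7 / c4 * A2 := ⟨_, rfl⟩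
  rw [← hp] at h2' h3
  have hp0 : 0 ≤ p := by rw [hp]; positivity
  have hA2 : A2 = c4 / 7 * p := by rw [hp]; field_simp
  obtain ⟨v, hv⟩ : ∃ v : ℝ, v = y - p := ⟨_, rfl⟩
  rw [← hv] at h3
  have hv0 : 0 ≤ v := by linarith
  have hvy : v ≤ y := by linarith
  have hpv : p = y - v := by linarith
  rcases eq_or_lt_of_le hx0 with hx | hx
  · -- the case y = 0
    have hy : y = 0 := by rw [← hxy, ← hx]; norm_num
    subst hy
    have hv1 : v = 0 := le_antisymm hvy hv0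
    have hA20 : A2 = 0 := by rw [hA2, hpv, hv1]; ring
    have hA30 : A3 = 0 := by
      have : A3 ^ 2 ≤ 0 := by simpa using h3
      exact pow_eq_zero_iff (two_ne_zero) |>.1 (le_antisymm this (sq_nonneg _))
    have hA40 : A4 = 0 := by
      have : A4 ^ 2 ≤ 0 := by simpa [hA20] using h4'
      exact pow_eq_zero_iff (two_ne_zero) |>.1 (le_antisymm this (sq_nonneg _))
    have hA50 : A5 = 0 := by
      have : A5 ^ 2 ≤ 0 := by simpa using h5
      exact pow_eq_zero_iff (two_ne_zero) |>.1 (le_antisymm this (sq_nonneg _))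
    have hA60 : A6 = 0 := by
      have : A6 ^ 2 ≤ 0 := by simpa using h6'
      exact pow_eq_zero_iff (two_ne_zero) |>.1 (le_antisymm this (sq_nonneg _))
    have hA70 : A7 = 0 := by
      have : A7 ^ 2 ≤ 0 := by simpa using h7
      exact pow_eq_zero_iff (two_ne_zero) |>.1 (le_antisymm this (sq_nonneg _))
    rw [hA20, hA30, hA40, hA50, hA60, hA70]
    norm_num
  have hy : 0 < y := by rw [← hxy]; positivity
  have hx1 : x ≤ 3465 / 10000 := by nlinarith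
  -- a0 = c4 / 7
  set a0 : ℝ := c4 / 7 with ha0
  have ha04 : a0 ^ 4 = 8 / 35 := by rw [ha0, div_pow, hc4]; norm_num
  have ha0p : 0 < a0 := by positivity
  have ha0u : a0 ≤ 69145 / 100000 := by rw [ha0]; linarith
  -- the bound for A4
  have hA4 : A4 ≤ 78199 / 100000 * (y * (y - 2 / 3 * v)) := by
    rcases eq_or_lt_of_le h4 with h40 | h40
    · rw [← h40]
      have : 0 ≤ y - 2 / 3 * v := by linarith
      positivity
    have h3' : A4 ^ 3 ≤ A2 ^ 2 * y ^ 4 := by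
      have e1 : A4 ^ 4 ≤ A2 ^ 2 * (A4 * y ^ 4) := by
        calc A4 ^ 4 = (A4 ^ 2) ^ 2 := by ring
          _ ≤ (A2 * A6) ^ 2 := by gcongr
          _ = A2 ^ 2 * A6 ^ 2 := by ring
          _ ≤ A2 ^ 2 * (A4 * y ^ 4) := by gcongr
      have e2 : A4 * A4 ^ 3 ≤ A4 * (A2 ^ 2 * y ^ 4) := by nlinarith
      exact le_of_mul_le_mul_left e2 h40
    by_contra hcon
    push Not at hcon
    have hw : 0 ≤ y - 2 / 3 * v := by linarith
    have e3 : (78199 / 100000 * (y * (y - 2 / 3 * v))) ^ 3 < A4 ^ 3 :=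
      pow_lt_pow_left₀ hcon (by positivity) (by norm_num)
    have e4 : A2 ^ 2 * y ^ 4 ≤ (78199 / 100000 * (y * (y - 2 / 3 * v))) ^ 3 := by
      have hyv : y * (y - v) ^ 2 ≤ (y - 2 / 3 * v) ^ 3 := by
        have : 0 ≤ v ^ 2 * (9 * y - 8 * v) := by
          have : 0 ≤ 9 * y - 8 * v := by linarith
          positivity
        nlinarith
      have ha2 : a0 ^ 2 ≤ (78199 / 100000) ^ 3 := by
        have : (a0 ^ 2) ^ 2 ≤ ((78199 / 100000) ^ 3) ^ 2 := by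
          rw [← pow_mul, ha04]; norm_num
        exact (pow_le_pow_iff_left₀ (by positivity) (by positivity) (by norm_num)).1 this
      calc A2 ^ 2 * y ^ 4 = a0 ^ 2 * (y ^ 3 * (y * (y - v) ^ 2)) := by rw [hA2, hpv]; ring
        _ ≤ (78199 / 100000) ^ 3 * (y ^ 3 * (y - 2 / 3 * v) ^ 3) := by gcongr
        _ = _ := by ring
    linarith
  have hA4' : A4 ≤ 78199 / 100000 * y ^ 2 := by nlinarith [mul_nonneg hy0 hv0]
  -- the bound for A6
  have hA6 : A6 ≤ 88431 / 100000 * y ^ 3 := by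
    have : A6 ^ 2 ≤ (88431 / 100000 * y ^ 3) ^ 2 := by
      calc A6 ^ 2 ≤ A4 * y ^ 4 := h6'
        _ ≤ (78199 / 100000 * y ^ 2) * y ^ 4 := by gcongr
        _ = 78199 / 100000 * y ^ 6 := by ring
        _ ≤ (88431 / 100000) ^ 2 * y ^ 6 := by gcongr; norm_num
        _ = _ := by ring
    exact abs_le_of_sq_le_sq' this (by positivity) |>.2
  -- the bound for A7
  have hA7 : A7 ≤ 94038 / 100000 * x ^ 7 := by
    have : A7 ^ 2 ≤ (94038 / 100000 * x ^ 7) ^ 2 := by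
      calc A7 ^ 2 ≤ A6 * y ^ 4 := h7
        _ ≤ (88431 / 100000 * y ^ 3) * y ^ 4 := by gcongr
        _ = 88431 / 100000 * y ^ 7 := by ring
        _ ≤ (94038 / 100000) ^ 2 * y ^ 7 := by gcongr; norm_num
        _ = _ := by rw [← hxy]; ring
    exact abs_le_of_sq_le_sq' this (by positivity) |>.2
  -- the bound for A5
  have hA5 : A5 ≤ 83154 / 100000 * (x ^ 3 * (y - v / 2)) := by
    have hw : 0 ≤ y - v / 2 := by linarith
    have : A5 ^ 2 ≤ (83154 / 100000 * (x ^ 3 * (y - v / 2))) ^ 2 := by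
      have hyv : y * (y - v) ≤ (y - v / 2) ^ 2 := by nlinarith [sq_nonneg v]
      calc A5 ^ 2 ≤ A2 * y ^ 4 := h5
        _ = a0 * (y ^ 3 * (y * (y - v))) := by rw [hA2, hpv]; ring
        _ ≤ (83154 / 100000) ^ 2 * (y ^ 3 * (y - v / 2) ^ 2) := by
            have : a0 ≤ (83154 / 100000) ^ 2 := by norm_num; linarith
            have h0 : 0 ≤ y * (y - v) := mul_nonneg hy0 (by linarith)
            gcongr
        _ = _ := by rw [← hxy]; ring
    exact abs_le_of_sq_le_sq' this (by positivity) |>.2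
  -- rho
  obtain ⟨ρ, hρ⟩ : ∃ ρ : ℝ, ρ = 1936 / 100 + 70 * (78199 / 100000) * (2 / 3) * x ^ 2 +
    28 * (83154 / 100000) * x ^ 3 := ⟨_, rfl⟩
  have hρ0 : 0 < ρ := by rw [hρ]; positivity
  -- the bound for A3
  have hA3 : 56 * A3 ≤ ρ * v + 680512 / 1000 * y ^ 2 / ρ := by
    have hsq : (56 * A3) ^ 2 ≤ (ρ * v + 680512 / 1000 * y ^ 2 / ρ) ^ 2 := by
      have e1 : (56 * A3) ^ 2 ≤ 4 * (680512 / 1000) * (y ^ 2 * v) := by
        calc (56 * A3) ^ 2 = 56 ^ 2 * A3 ^ 2 := by ring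
          _ ≤ 56 ^ 2 * (217 / 250 * y ^ 2 * v) := by gcongr
          _ = _ := by ring
      have e2 : 4 * (680512 / 1000) * (y ^ 2 * v) =
          4 * (ρ * v) * (680512 / 1000 * y ^ 2 / ρ) := by field_simp
      rw [e2] at e1
      nlinarith [sq_nonneg (ρ * v - 680512 / 1000 * y ^ 2 / ρ)]
    exact abs_le_of_sq_le_sq' hsq (by positivity) |>.2
  have hpoly := poly_main hx0 (by rw [hxy]; exact hy1)
  rw [← hρ] at hpoly
  have hdiv : 680512 / 1000 * y ^ 2 / ρ ≤ y ^ 2 * (97 + 50 * x ^ 2 - 547393 / 10000 -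
      46566240 / 1000000 * x - 2476068 / 100000 * x ^ 2 - 752304 / 100000 * x ^ 3 - x ^ 4) := by
    rw [div_le_iff₀ hρ0]
    have := mul_le_mul_of_nonneg_left hpoly (sq_nonneg y)
    linarith
  have hA2' : 28 * A2 = 4 * c4 * y - 4 * c4 * v := by rw [hA2, hpv, ha0]; ring
  have hcv : 1936 / 100 * v ≤ 4 * c4 * v := by nlinarith
  have hρv : ρ * v = 1936 / 100 * v + 70 * (78199 / 100000) * (2 / 3) * (y * v) +
      28 * (83154 / 100000) * (x ^ 3 * v) := by rw [hρ, ← hxy]; ring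
  have hx5 : x ^ 3 * y = y ^ 2 * x := by rw [← hxy]; ring
  have hx7 : x ^ 7 = y ^ 2 * x ^ 3 := by rw [← hxy]; ring
  have hx4 : y ^ 2 * x ^ 4 = y ^ 4 := by rw [← hxy]; ring
  have hx2 : y ^ 2 * x ^ 2 = y ^ 3 := by rw [← hxy]; ring
  rw [hx7] at hA7
  have hA5' : A5 ≤ 83154 / 100000 * (y ^ 2 * x - x ^ 3 * v / 2) := by
    calc A5 ≤ 83154 / 100000 * (x ^ 3 * (y - v / 2)) := hA5
      _ = _ := by rw [mul_sub, hx5]; ring
  have hA4'' : A4 ≤ 78199 / 100000 * (y ^ 2 - 2 / 3 * (y * v)) := by linarith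
  have hfin : y ^ 2 * (97 + 50 * x ^ 2 - 547393 / 10000 -
      46566240 / 1000000 * x - 2476068 / 100000 * x ^ 2 - 752304 / 100000 * x ^ 3 - x ^ 4) =
      (97 - 547393 / 10000) * y ^ 2 + (50 - 2476068 / 100000) * y ^ 3
      - 46566240 / 1000000 * (y ^ 2 * x) - 752304 / 100000 * (y ^ 2 * x ^ 3) - y ^ 4 := by
    rw [← hx4, ← hx2]; ring
  rw [hfin] at hdiv
  linarith

end Pool.Agent.N297.LS
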