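import Pool.Agent.N297.LS.PI4
import Pool.Agent.N966.LS.TwoBlock
import Pool.Agent.N615.LS.Mom
import Pool.Agent.N342.LS.JSpec

/-!
# KS14: the two block inequality for `k = 4`
-/

set_option autoImplicit false

namespace Pool.Agent.N297.LS

open Finset Pool.Agent.N356.SP
open Pool.Agent.N645.LS (cosp_cont cosp_add cosp_smul cl_cont cosp_eq)

theorem AJ_cs4 (g f : ℤ →₀ ℝ) : AJ 4 4 g f ^ 2 ≤ AJ 6 2 g f * AJ 2 6 g f ∧
    AJ 2 6 g f ^ 2 ≤ AJ 4 4 g f * Mc 4 f ∧ AJ 3 5 g f ^ 2 ≤ AJ 6 2 g f * Mc 4 f ∧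
    AJ 1 7 g f ^ 2 ≤ AJ 2 6 g f * Mc 4 f ∧ 0 ≤ AJ 4 4 g f ∧ 0 ≤ AJ 2 6 g f := by
  have hg := cosp_cont g
  have hf := cosp_cont f
  refine ⟨?_, ?_, ?_, ?_, ?_, ?_⟩
  · have h := Pool.Agent.N966.LS.cs (u := fun x => cosp g x ^ 3 * cosp f x)
      (v := fun x => cosp g x * cosp f x ^ 3) (by fun_prop) (by fun_prop)
    unfold AJ
    calc _ = (∫ x in (0:ℝ)..1, cosp g x ^ 3 * cosp f x * (cosp g x * cosp f x ^ 3)) ^ 2 := by
          congr 1
          exact intervalIntegral.integral_congr fun x _ => by ring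
      _ ≤ _ := h
      _ = _ := by
          congr 1
          · exact intervalIntegral.integral_congr fun x _ => by ring
          · exact intervalIntegral.integral_congr fun x _ => by ring
  · have h := Pool.Agent.N966.LS.cs (u := fun x => cosp g x ^ 2 * cosp f x ^ 2)
      (v := fun x => cosp f x ^ 4) (by fun_prop) (by fun_prop)
    unfold AJ Mc
    calc _ = (∫ x in (0:ℝ)..1, cosp g x ^ 2 * cosp f x ^ 2 * cosp f x ^ 4) ^ 2 := by
          congr 1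
          exact intervalIntegral.integral_congr fun x _ => by ring
      _ ≤ _ := h
      _ = _ := by
          congr 1
          · exact intervalIntegral.integral_congr fun x _ => by ring
          · exact intervalIntegral.integral_congr fun x _ => by ring
  · have h := Pool.Agent.N966.LS.cs (u := fun x => cosp g x ^ 3 * cosp f x)
      (v := fun x => cosp f x ^ 4) (by fun_prop) (by fun_prop)
    unfold AJ Mc
    calc _ = (∫ x in (0:ℝ)..1, cosp g x ^ 3 * cosp f x * cosp f x ^ 4) ^ 2 := by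
          congr 1
          exact intervalIntegral.integral_congr fun x _ => by ring
      _ ≤ _ := h
      _ = _ := by
          congr 1
          · exact intervalIntegral.integral_congr fun x _ => by ring
          · exact intervalIntegral.integral_congr fun x _ => by ring
  · have h := Pool.Agent.N966.LS.cs (u := fun x => cosp g x * cosp f x ^ 3)
      (v := fun x => cosp f x ^ 4) (by fun_prop) (by fun_prop)
    unfold AJ Mc
    calc _ = (∫ x in (0:ℝ)..1, cosp g x * cosp f x ^ 3 * cosp f x ^ 4) ^ 2 := by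
          congr 1
          exact intervalIntegral.integral_congr fun x _ => by ring
      _ ≤ _ := h
      _ = _ := by
          congr 1
          · exact intervalIntegral.integral_congr fun x _ => by ring
          · exact intervalIntegral.integral_congr fun x _ => by ring
  · unfold AJ
    refine intervalIntegral.integral_nonneg zero_le_one fun x _ => ?_
    positivity
  · unfold AJ
    refine intervalIntegral.integral_nonneg zero_le_one fun x _ => ?_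
    positivity

theorem Mc_exp4 (g f : ℤ →₀ ℝ) (t : ℝ) : Mc 4 (g + t • f) = Mc 4 g + 8 * t * AJ 7 1 g f +
    28 * t ^ 2 * AJ 6 2 g f + 56 * t ^ 3 * AJ 5 3 g f + 70 * t ^ 4 * AJ 4 4 g f +
    56 * t ^ 5 * AJ 3 5 g f + 28 * t ^ 6 * AJ 2 6 g f + 8 * t ^ 7 * AJ 1 7 g f +
    t ^ 8 * Mc 4 f := by
  have hg := cosp_cont g
  have hf := cosp_cont f
  have h1 : Mc 4 (g + t • f) = ∫ x in (0:ℝ)..1, ∑ i ∈ range 9,
      (((8).choose i : ℝ) * t ^ i) * (cosp g x ^ (8 - i) * cosp f x ^ i) := by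
    unfold Mc
    refine intervalIntegral.integral_congr fun x _ => ?_
    simp only [cosp_add, cosp_smul]
    simp only [sum_range_succ, sum_range_zero, Nat.choose]
    push_cast
    ring
  rw [h1, intervalIntegral.integral_finsetSum (fun i _ =>
    (Continuous.intervalIntegrable (by fun_prop) 0 1))]
  simp only [intervalIntegral.integral_const_mul, sum_range_succ, sum_range_zero, Nat.choose]
  unfold Mc AJ
  norm_num

theorem two_block4_of {g f : ℤ →₀ ℝ}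
    (star4 : 0 ≤ AJ 6 2 g f ∧ 7 / c4 * AJ 6 2 g f ≤ 70 * 1 ∧
      AJ 5 3 g f ^ 2 ≤ 217 / 250 * 70 * 1 ^ 2 * (70 * 1 - 7 / c4 * AJ 6 2 g f))
    (A1_eq : AJ 7 1 g f = 0) (hG : Mc 4 g ≤ 70) (hF : Mc 4 f ≤ 70)
    {t : ℝ} (ht0 : 0 ≤ t) (ht1 : t ^ 2 ≤ 3 / 25) :
    Mc 4 (g + t • f) ≤ 70 * (1 + 4 * c4 * t ^ 2 + 97 * t ^ 4 + 50 * t ^ 6) := by
  obtain ⟨h62, hs1, hs2⟩ := star4
  obtain ⟨k1, k2, k3, k4, h44, h26⟩ := AJ_cs4 g f
  have h := PI4 (y := t ^ 2) (A2 := t ^ 2 * AJ 6 2 g f / 70) (A3 := t ^ 3 * AJ 5 3 g f / 70)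
    (A4 := t ^ 4 * AJ 4 4 g f / 70) (A5 := t ^ 5 * AJ 3 5 g f / 70)
    (A6 := t ^ 6 * AJ 2 6 g f / 70) (A7 := t ^ 7 * AJ 1 7 g f / 70) (by positivity) ht1
    (by positivity) (by positivity) (by positivity) (by
      calc 7 / c4 * (t ^ 2 * AJ 6 2 g f / 70) = t ^ 2 * (7 / c4 * AJ 6 2 g f) / 70 := by ring
        _ ≤ t ^ 2 * (70 * 1) / 70 := by gcongr
        _ = t ^ 2 := by ring) (by
      calc (t ^ 3 * AJ 5 3 g f / 70) ^ 2 = t ^ 6 * AJ 5 3 g f ^ 2 / 4900 := by ring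
        _ ≤ t ^ 6 * (217 / 250 * 70 * 1 ^ 2 * (70 * 1 - 7 / c4 * AJ 6 2 g f)) / 4900 := by gcongr
        _ = _ := by ring) (by
      calc (t ^ 4 * AJ 4 4 g f / 70) ^ 2 = t ^ 8 * AJ 4 4 g f ^ 2 / 4900 := by ring
        _ ≤ t ^ 8 * (AJ 6 2 g f * AJ 2 6 g f) / 4900 := by gcongr
        _ = _ := by ring) (by
      have h1 : AJ 2 6 g f ^ 2 ≤ AJ 4 4 g f * 70 :=
        k2.trans (mul_le_mul_of_nonneg_left hF h44)
      calc (t ^ 6 * AJ 2 6 g f / 70) ^ 2 = t ^ 12 * AJ 2 6 g f ^ 2 / 4900 := by ring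
        _ ≤ t ^ 12 * (AJ 4 4 g f * 70) / 4900 := by gcongr
        _ = _ := by ring) (by
      have h1 : AJ 3 5 g f ^ 2 ≤ AJ 6 2 g f * 70 :=
        k3.trans (mul_le_mul_of_nonneg_left hF h62)
      calc (t ^ 5 * AJ 3 5 g f / 70) ^ 2 = t ^ 10 * AJ 3 5 g f ^ 2 / 4900 := by ring
        _ ≤ t ^ 10 * (AJ 6 2 g f * 70) / 4900 := by gcongr
        _ = _ := by ring) (by
      have h1 : AJ 1 7 g f ^ 2 ≤ AJ 2 6 g f * 70 :=
        k4.trans (mul_le_mul_of_nonneg_left hF h26)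
      calc (t ^ 7 * AJ 1 7 g f / 70) ^ 2 = t ^ 14 * AJ 1 7 g f ^ 2 / 4900 := by ring
        _ ≤ t ^ 14 * (AJ 2 6 g f * 70) / 4900 := by gcongr
        _ = _ := by ring)
  rw [Mc_exp4, A1_eq]
  have h8 : t ^ 8 * Mc 4 f ≤ t ^ 8 * 70 := mul_le_mul_of_nonneg_left hF (by positivity)
  have e8 : (t ^ 2) ^ 4 = t ^ 8 := by ring
  have e6 : (t ^ 2) ^ 3 = t ^ 6 := by ring
  have e4 : (t ^ 2) ^ 2 = t ^ 4 := by ring
  rw [e8, e6, e4] at h
  linarith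

/-- LS8d -/
theorem A1_eq {m : ℕ} {C : Finset (ZMod m)} {g f : ℤ →₀ ℝ} (hneg : ∀ s ∈ C, -s ∈ C)
    (hne : ∀ s ∈ C, s ≠ -s) (hg0 : ∀ n, 0 ≤ g n) (hf0 : ∀ n, 0 ≤ f n)
    (hg : ∀ n ∈ g.support, ((n : ℤ) : ZMod m) = 0)
    (hf : ∀ n ∈ f.support, ((n : ℤ) : ZMod m) ∈ C) (i : ℕ) : AJ i 1 g f = 0 :=
  Pool.Agent.N615.LS.A1_of cosp_cont cl_cont cosp_eq
    (fun m g f hg0 hf0 hg i U => Pool.Agent.N342.LS.J_spec m g f hg0 hf0 hg i U)
    hneg hne hg0 hf0 hg hf i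

/-- KS14: the two block inequality, from KS12 in the form of `Stm4.lean` -/
theorem two_block4
    (star4 : ∀ {m : ℕ} {C : Finset (ZMod m)} {θ : ZMod m → ZMod m → ℝ} {g f : ℤ →₀ ℝ},
      GoodC C θ → (∀ n, 0 ≤ g n) → (∀ n, 0 ≤ f n) →
      (∀ n ∈ g.support, ((n : ℤ) : ZMod m) = 0) →
      (∀ n ∈ f.support, ((n : ℤ) : ZMod m) ∈ C) → ∀ {G y : ℝ}, 0 < G → 0 ≤ y →
      Mc 4 g ≤ G → Mc 4 f ≤ G * y ^ 4 →
      0 ≤ AJ 6 2 g f ∧ 7 / c4 * AJ 6 2 g f ≤ G * y ∧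
        AJ 5 3 g f ^ 2 ≤ 217 / 250 * G * y ^ 2 * (G * y - 7 / c4 * AJ 6 2 g f))
    {m : ℕ} {C : Finset (ZMod m)} {θ : ZMod m → ZMod m → ℝ} {g f : ℤ →₀ ℝ}
    (h : GoodC C θ) (hg0 : ∀ n, 0 ≤ g n) (hf0 : ∀ n, 0 ≤ f n)
    (hg : ∀ n ∈ g.support, ((n : ℤ) : ZMod m) = 0)
    (hf : ∀ n ∈ f.support, ((n : ℤ) : ZMod m) ∈ C) (hG : Mc 4 g ≤ 70) (hF : Mc 4 f ≤ 70)
    {t : ℝ} (ht0 : 0 ≤ t) (ht1 : t ^ 2 ≤ 3 / 25) :
    Mc 4 (g + t • f) ≤ 70 * (1 + 4 * c4 * t ^ 2 + 97 * t ^ 4 + 50 * t ^ 6) :=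
  two_block4_of (star4 h hg0 hf0 hg hf (G := 70) (y := 1) (by norm_num) zero_le_one hG
    (by simpa using hF)) (A1_eq h.neg h.ne hg0 hf0 hg hf 7) hG hF ht0 ht1

end Pool.Agent.N297.LS
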